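import Pool.Agent.Helper856.Lcw.Final

open SimpleGraph Pool.Agent.Helper856.Lcw

namespace Pool.Agent.Results.MP_8c78f3_co.LcwDichotomy

/-- Sanity: a nonempty finite graph has some linear construction, so the minimum defining
`linearCliqueWidth` is attained. -/
theorem attained {V : Type} [Finite V] [Nonempty V] (G : SimpleGraph V) :
    LcwLE G (linearCliqueWidth G) :=
  Nat.sInf_mem (exists_lcwLE G)

/-- Complete classification: the bipartite graphs without induced `H` have bounded linear
clique-width exactly when `H` has no edge or is an induced subgraph of one of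
`K_{1,3} + 3 P_1`, `K_{1,3} + P_2`, `P_1 + S_{1,1,3}`, `S_{1,2,2}`. -/
theorem result (W : Type) [Finite W] (H : SimpleGraph W) :
    (∃ c : ℕ, ∀ (V : Type) [Finite V] (G : SimpleGraph V),
      G.IsBipartite → ¬ H.IsIndContained G → linearCliqueWidth G ≤ c) ↔
    (H = ⊥ ∨ H.IsIndContained K13_3P1 ∨ H.IsIndContained K13_P2 ∨
      H.IsIndContained P1_S113 ∨ H.IsIndContained S122) := by
  obtain ⟨n, ⟨e⟩⟩ := Finite.exists_equiv_fin W
  let H' : SimpleGraph (Fin n) := H.comap e.symm
  have i1 : H ≃g H' := (SimpleGraph.Iso.comap e.symm H).symm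
  have h1 : H.IsIndContained H' := ⟨i1.toEmbedding⟩
  have h2 : H'.IsIndContained H := ⟨i1.symm.toEmbedding⟩
  have key : ∀ {m : ℕ} (F : SimpleGraph (Fin m)), H.IsIndContained F ↔ H'.IsIndContained F :=
    fun F => ⟨fun h => h2.trans h, fun h => h1.trans h⟩
  have key2 : ∀ (V : Type) (G : SimpleGraph V), H.IsIndContained G ↔ H'.IsIndContained G :=
    fun V G => ⟨fun h => h2.trans h, fun h => h1.trans h⟩
  have hbot : H = ⊥ ↔ H' = ⊥ := by
    constructor
    · intro h
      ext u v
      simp [H', h]
    · intro h
      have hb : ∀ x y, ¬ H'.Adj x y := by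
        intro x y
        rw [h]
        simp
      ext u v
      have h3 : H'.Adj (i1 u) (i1 v) ↔ H.Adj u v := i1.map_rel_iff
      exact iff_of_false (fun h4 => hb _ _ (h3.mpr h4)) (by simp)
  have main := main_fin H'
  rw [hbot, key, key, key, key, ← main]
  unfold BoundedLcw
  refine exists_congr (fun c => forall_congr' (fun V => forall_congr' (fun _ =>
    forall_congr' (fun G => ?_))))
  rw [key2]

end Pool.Agent.Results.MP_8c78f3_co.LcwDichotomy
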